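import Pool.Agent.H108R3.Had.Main

/-!
# Long arithmetic progressions of Hadamard orders with a small common difference

There is a constant `C` such that for every `N ≥ 3` there is a common difference `d ≥ 1`,
`d ≤ exp (C * ℓ * (1 + log ℓ) ^ 2)` with `ℓ = 1 + log log N`, such that all the `N` terms
`d, 2 d, ..., N d` of the progression with first term `d` and difference `d` are Hadamard orders.
-/

namespace Pool.Agent.Results.MP_9e8db8_co.LongProgressions

open Pool.Agent.H108R3.Had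

theorem mono_bound {C : ℝ} (hC : 1 ≤ C) {q q' : ℕ} (hq : 3 ≤ q) (hqq' : q ≤ q') :
    C * (1 + Real.log (Real.log q)) * (1 + Real.log (1 + Real.log (Real.log q))) ^ 2 ≤
    C * (1 + Real.log (Real.log q')) * (1 + Real.log (1 + Real.log (Real.log q'))) ^ 2 := by
  have hq3 : (3 : ℝ) ≤ q := by exact_mod_cast hq
  have hl := loglog_pos hq
  have hqr : (q : ℝ) ≤ q' := by exact_mod_cast hqq'
  have h1 : Real.log q ≤ Real.log q' := Real.log_le_log (by linarith) hqr
  have h0 : 0 < Real.log q := Real.log_pos (by linarith)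
  have h2 : Real.log (Real.log q) ≤ Real.log (Real.log q') := Real.log_le_log h0 h1
  have h3 : Real.log (1 + Real.log (Real.log q)) ≤ Real.log (1 + Real.log (Real.log q')) :=
    Real.log_le_log (by linarith) (by linarith)
  have h4 : 0 ≤ Real.log (1 + Real.log (Real.log q)) := Real.log_nonneg (by linarith)
  have h5 : (1 + Real.log (1 + Real.log (Real.log q))) ^ 2 ≤
      (1 + Real.log (1 + Real.log (Real.log q'))) ^ 2 :=
    pow_le_pow_left₀ (by linarith) (by linarith) 2
  have h6 : C * (1 + Real.log (Real.log q)) ≤ C * (1 + Real.log (Real.log q')) :=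
    mul_le_mul_of_nonneg_left (by linarith) (by linarith)
  have h7 : 0 ≤ C * (1 + Real.log (Real.log q')) := mul_nonneg (by linarith) (by linarith)
  exact mul_le_mul h6 h5 (sq_nonneg _) h7

theorem one_le_bound {C : ℝ} (hC : 1 ≤ C) {q : ℕ} (hq : 3 ≤ q) :
    1 ≤ C * (1 + Real.log (Real.log q)) * (1 + Real.log (1 + Real.log (Real.log q))) ^ 2 := by
  have hl := loglog_pos hq
  have h4 : 0 ≤ Real.log (1 + Real.log (Real.log q)) := Real.log_nonneg (by linarith)
  have h5 : 1 ≤ (1 + Real.log (1 + Real.log (Real.log q))) ^ 2 := by nlinarith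
  have h6 : 1 ≤ C * (1 + Real.log (Real.log q)) := by nlinarith
  exact one_le_mul_of_one_le_of_one_le h6 h5

theorem result : ∃ C : ℝ, ∀ N : ℕ, 3 ≤ N → ∃ d : ℕ, 0 < d ∧
    (d : ℝ) ≤ Real.exp (C * (1 + Real.log (Real.log N)) *
      (1 + Real.log (1 + Real.log (Real.log N))) ^ 2) ∧
    ∀ k : ℕ, k < N → ∃ H : Matrix (Fin (d + k * d)) (Fin (d + k * d)) ℤ,
      (∀ i j, H i j = 1 ∨ H i j = -1) ∧
      H * H.transpose = ((d + k * d : ℕ) : ℤ) •
        (1 : Matrix (Fin (d + k * d)) (Fin (d + k * d)) ℤ) := by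
  obtain ⟨C, hC, h⟩ := pu_loglog
  have h12 : PUk 1 2 := by
    have := (t_P4 t_P1) 1 1 le_rfl (lift 0 1 t_P2.2)
    simpa using this
  have hLev := lev_of t_P2 lift
    (fun q : ℕ => C * (1 + Real.log (Real.log q)) *
      (1 + Real.log (1 + Real.log (Real.log q))) ^ 2)
    (fun q hq => one_le_bound hC hq) (fun q q' hq hqq' => mono_bound hC hq hqq') h h12
  refine ⟨2 * C, fun N hN => ?_⟩
  obtain ⟨-, hP⟩ := hLev N hN
  set B : ℝ := C * (1 + Real.log (Real.log N)) *
      (1 + Real.log (1 + Real.log (Real.log N))) ^ 2 with hB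
  have hB1 : 1 ≤ B := one_le_bound hC hN
  refine ⟨2 ^ ⌈B⌉₊, by positivity, ?_, ?_⟩
  · have h1 : ((⌈B⌉₊ : ℕ) : ℝ) ≤ B + 1 := (Nat.ceil_lt_add_one (by linarith)).le
    have h2 : ((2 ^ ⌈B⌉₊ : ℕ) : ℝ) = Real.exp (Real.log 2 * (⌈B⌉₊ : ℕ)) := by
      rw [mul_comm, Real.exp_nat_mul, Real.exp_log (by norm_num)]
      push_cast
      rfl
    rw [h2]
    apply Real.exp_le_exp.2
    have h3 : 2 * C * (1 + Real.log (Real.log N)) *
        (1 + Real.log (1 + Real.log (Real.log N))) ^ 2 = 2 * B := by rw [hB]; ring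
    rw [h3]
    have h4 : Real.log 2 ≤ 1 := by
      have := Real.log_two_lt_d9
      linarith
    have h5 : 0 < Real.log 2 := Real.log_pos (by norm_num)
    calc Real.log 2 * (⌈B⌉₊ : ℕ) ≤ 1 * (B + 1) :=
          mul_le_mul h4 h1 (by positivity) (by norm_num)
      _ ≤ 2 * B := by linarith
  · intro k hk
    have h1 := t_P7 _ _ (hP (k + 1) (by omega))
    have h2 : 2 ^ ⌈B⌉₊ * (k + 1) = 2 ^ ⌈B⌉₊ + k * 2 ^ ⌈B⌉₊ := by ring
    unfold HasHad at h1
    rw [h2] at h1
    exact h1

end Pool.Agent.Results.MP_9e8db8_co.LongProgressions
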